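import Mathlib

/-! Combinatorial part: sparse edge sets and merging of points. -/

namespace Pool.Agent.H791Z.LogConv

open Finset

variable {A B : Type} [DecidableEq A] [DecidableEq B]

/-- Hereditarily sparse edge sets. -/
def Sparse (I : Finset (A × B)) : Prop :=
  ∀ J ⊆ I, J.Nonempty → J.card + 2 ≤ 2 * (J.image Prod.fst).card + (J.image Prod.snd).card

lemma Sparse.mono {I J : Finset (A × B)} (h : Sparse I) (hJ : J ⊆ I) : Sparse J :=
  fun K hK hne => h K (hK.trans hJ) hne

/-- dichotomy: a vertex of degree one or two, or all degrees at least three -/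
lemma dichotomy (I : Finset (A × B)) :
    (∃ a, 1 ≤ (I.filter (fun e => e.1 = a)).card ∧ (I.filter (fun e => e.1 = a)).card ≤ 2) ∨
    (∃ b, 1 ≤ (I.filter (fun e => e.2 = b)).card ∧ (I.filter (fun e => e.2 = b)).card ≤ 2) ∨
    (3 * (I.image Prod.fst).card ≤ I.card ∧ 3 * (I.image Prod.snd).card ≤ I.card) := by
  by_contra h
  push Not at h
  obtain ⟨h1, h2, h3⟩ := h
  have k1 : 3 * (I.image Prod.fst).card ≤ I.card := by
    rw [card_eq_sum_card_image Prod.fst I, mul_comm, ← smul_eq_mul, ← sum_const]
    refine sum_le_sum fun a ha => ?_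
    obtain ⟨e, he, rfl⟩ := mem_image.1 ha
    have : 1 ≤ (I.filter (fun e' => e'.1 = e.1)).card :=
      card_pos.2 ⟨e, mem_filter.2 ⟨he, rfl⟩⟩
    have := h1 e.1 this
    omega
  have k2 : 3 * (I.image Prod.snd).card ≤ I.card := by
    rw [card_eq_sum_card_image Prod.snd I, mul_comm, ← smul_eq_mul, ← sum_const]
    refine sum_le_sum fun a ha => ?_
    obtain ⟨e, he, rfl⟩ := mem_image.1 ha
    have : 1 ≤ (I.filter (fun e' => e'.2 = e.2)).card :=
      card_pos.2 ⟨e, mem_filter.2 ⟨he, rfl⟩⟩
    have := h2 e.2 this
    omega
  have := h3 k1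
  omega

/-- the image of a tight sparse set under a merging of points -/
lemma tight_image (C : Finset (A × B)) (hs : Sparse C)
    (ht : 2 * (C.image Prod.fst).card + (C.image Prod.snd).card ≤ C.card + 2) (q : A → A) :
    (C.image Prod.snd).card + 2 * ((C.image Prod.fst).image q).card ≤
      (C.image (Prod.map q id)).card + 2 := by
  set K := (C.image Prod.fst).image q with hK
  have hC : C.card = ∑ x ∈ K, (C.filter (fun e => q e.1 = x)).card := by
    apply card_eq_sum_card_fiberwise
    intro e he
    exact mem_image_of_mem _ (mem_image_of_mem _ he)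
  have hS : (C.image Prod.fst).card =
      ∑ x ∈ K, ((C.filter (fun e => q e.1 = x)).image Prod.fst).card := by
    rw [card_eq_sum_card_image q (C.image Prod.fst)]
    refine sum_congr rfl fun x _ => ?_
    congr 1
    ext a
    simp only [mem_filter, mem_image]
    constructor
    · rintro ⟨⟨e, he, rfl⟩, h⟩
      exact ⟨e, ⟨he, h⟩, rfl⟩
    · rintro ⟨e, ⟨he, h⟩, rfl⟩
      exact ⟨⟨e, he, rfl⟩, h⟩
  have hD : (C.image (Prod.map q id)).card =
      ∑ x ∈ K, ((C.filter (fun e => q e.1 = x)).image Prod.snd).card := by
    rw [card_eq_sum_card_fiberwise (f := Prod.fst) (t := K)]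
    · refine sum_congr rfl fun x _ => ?_
      symm
      apply card_bij (fun b _ => (x, b))
      · intro b hb
        simp only [mem_filter, mem_image] at hb ⊢
        obtain ⟨e, ⟨he, h⟩, rfl⟩ := hb
        exact ⟨⟨e, he, by ext <;> simp [h]⟩, trivial⟩
      · intro b _ b' _ h
        simpa using h
      · intro y hy
        simp only [mem_filter, mem_image] at hy
        obtain ⟨⟨e, he, rfl⟩, h⟩ := hy
        refine ⟨e.2, ?_, ?_⟩
        · simp only [mem_filter, mem_image]
          exact ⟨e, ⟨he, h⟩, rfl⟩
        · ext
          · exact h.symm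
          · rfl
    · intro y hy
      simp only [coe_image, Set.mem_image, mem_coe] at hy
      obtain ⟨e, he, rfl⟩ := hy
      exact mem_image_of_mem _ (mem_image_of_mem _ he)
  have hsum : ∑ x ∈ K, ((C.filter (fun e => q e.1 = x)).card + 2) ≤
      ∑ x ∈ K, (2 * ((C.filter (fun e => q e.1 = x)).image Prod.fst).card +
        ((C.filter (fun e => q e.1 = x)).image Prod.snd).card) := by
    refine sum_le_sum fun x hx => hs _ (filter_subset _ _) ?_
    simp only [hK, mem_image] at hx
    obtain ⟨a, ⟨e, he, rfl⟩, rfl⟩ := hx
    exact ⟨e, mem_filter.2 ⟨he, rfl⟩⟩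
  rw [sum_add_distrib, sum_add_distrib, ← mul_sum, ← hC, ← hS, ← hD, sum_const, smul_eq_mul] at hsum
  omega

/-- Every edge set has a sparse subset that is matched by a merging of points. -/
theorem exists_sparse (S : Finset A) (n : ℕ) : ∀ I : Finset (A × B), I.card = n →
    ∃ I0 ⊆ I, Sparse I0 ∧ ∃ q : A → A,
      2 * S.card + (I.image (Prod.map q id)).card ≤ 2 * (S.image q).card + I0.card := by
  induction n with
  | zero =>
    intro I hI
    rw [card_eq_zero] at hI
    subst hI
    refine ⟨∅, Subset.rfl, fun J hJ hne => ?_, id, by simp⟩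
    rw [subset_empty] at hJ
    subst hJ
    exact absurd hne (by simp)
  | succ n ih =>
    intro I hI
    by_cases hsp : Sparse I
    · exact ⟨I, Subset.rfl, hsp, id, by simp⟩
    -- a minimal violating subset
    have hex : ∃ k, ∃ C ⊆ I, C.Nonempty ∧
        2 * (C.image Prod.fst).card + (C.image Prod.snd).card < C.card + 2 ∧ C.card = k := by
      unfold Sparse at hsp
      push Not at hsp
      obtain ⟨C, h1, h2, h3⟩ := hsp
      exact ⟨_, C, h1, h2, h3, rfl⟩
    classical
    obtain ⟨C, hCI, hCne, hCv, hCk⟩ := Nat.find_spec hex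
    obtain ⟨e, he⟩ := hCne
    set C' := C.erase e with hC'
    have hC'card : C'.card + 1 = C.card := card_erase_add_one he
    have hsC' : Sparse C' := by
      intro J hJ hne
      by_contra hcon
      push Not at hcon
      have h1 : J.card < Nat.find hex := by
        have := card_le_card hJ
        omega
      exact Nat.find_min hex h1 ⟨J, hJ.trans ((erase_subset _ _).trans hCI), hne, hcon, rfl⟩
    have hC'ne : C'.Nonempty := by
      rw [← card_pos]
      have h1 : 1 ≤ (C.image Prod.fst).card := card_pos.2 ⟨_, mem_image_of_mem _ he⟩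
      have h2 : 1 ≤ (C.image Prod.snd).card := card_pos.2 ⟨_, mem_image_of_mem _ he⟩
      omega
    have hsub1 : C'.image Prod.fst ⊆ C.image Prod.fst := image_subset_image (erase_subset _ _)
    have hsub2 : C'.image Prod.snd ⊆ C.image Prod.snd := image_subset_image (erase_subset _ _)
    have hc1 := card_le_card hsub1
    have hc2 := card_le_card hsub2
    have hc3 := hsC' C' Subset.rfl hC'ne
    have he1 : e.1 ∈ C'.image Prod.fst := by
      rw [eq_of_subset_of_card_le hsub1 (by omega)]
      exact mem_image_of_mem _ he
    have he2 : e.2 ∈ C'.image Prod.snd := by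
      rw [eq_of_subset_of_card_le hsub2 (by omega)]
      exact mem_image_of_mem _ he
    obtain ⟨I0, hI0, hsp0, q, hq⟩ := ih (I.erase e) (by
      have := card_erase_add_one (hCI he)
      omega)
    have ht := tight_image C' hsC' (by omega) q
    set K := (C'.image Prod.fst).image q with hK
    set k0 := q e.1 with hk0
    have hk0K : k0 ∈ K := mem_image_of_mem _ he1
    let g : A → A := fun x => if x ∈ K then k0 else x
    refine ⟨I0, hI0.trans (erase_subset _ _), hsp0, g ∘ q, ?_⟩
    have h1 : (S.image q).card + 1 ≤ (S.image (g ∘ q)).card + K.card := by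
      have : S.image q ⊆ S.image (g ∘ q) ∪ K.erase k0 := by
        intro x hx
        obtain ⟨a, ha, rfl⟩ := mem_image.1 hx
        by_cases h : q a ∈ K.erase k0
        · exact mem_union_right _ h
        · refine mem_union_left _ (mem_image.2 ⟨a, ha, ?_⟩)
          simp only [Function.comp, g]
          split_ifs with h'
          · by_contra hne
            exact h (mem_erase.2 ⟨fun h2 => hne h2.symm, h'⟩)
          · rfl
      have h2 := (card_le_card this).trans (card_union_le _ _)
      have h3 := card_erase_add_one hk0K
      omega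
    set J := (I.erase e).image (Prod.map q id) with hJ
    set D := C'.image (Prod.map q id) with hD
    have hDJ : D ⊆ J := image_subset_image (erase_subset_erase _ hCI)
    have h2 : (I.image (Prod.map (g ∘ q) id)).card + D.card ≤ (C'.image Prod.snd).card + J.card := by
      have : I.image (Prod.map (g ∘ q) id) ⊆
          (C'.image Prod.snd).image (fun b => (k0, b)) ∪ (J \ D).image (Prod.map g id) := by
        intro y hy
        obtain ⟨f, hf, rfl⟩ := mem_image.1 hy
        by_cases hfe : f = e
        · subst hfe
          refine mem_union_left _ (mem_image.2 ⟨f.2, he2, ?_⟩)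
          ext
          · simp only [Prod.map_fst, Function.comp, g]
            rw [if_pos hk0K]
          · rfl
        · by_cases hfD : Prod.map q id f ∈ D
          · obtain ⟨f', hf', hff⟩ := mem_image.1 hfD
            have e1 : q f'.1 = q f.1 := congrArg Prod.fst hff
            have e2 : f'.2 = f.2 := by simpa using congrArg Prod.snd hff
            refine mem_union_left _ (mem_image.2 ⟨f'.2, mem_image_of_mem _ hf', ?_⟩)
            ext
            · simp only [Prod.map_fst, Function.comp, g]
              rw [if_pos]
              rw [← e1]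
              exact mem_image_of_mem _ (mem_image_of_mem _ hf')
            · exact e2
          · refine mem_union_right _ (mem_image.2 ⟨Prod.map q id f, mem_sdiff.2 ⟨?_, hfD⟩, rfl⟩)
            exact mem_image_of_mem _ (mem_erase.2 ⟨hfe, hf⟩)
      have h3 := (card_le_card this).trans (card_union_le _ _)
      have h4 : ((C'.image Prod.snd).image (fun b => (k0, b))).card ≤ (C'.image Prod.snd).card :=
        card_image_le
      have h5 : ((J \ D).image (Prod.map g id)).card ≤ (J \ D).card := card_image_le
      have h6 := card_sdiff_add_card_eq_card hDJ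
      omega
    omega

end Pool.Agent.H791Z.LogConv
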