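import Mathlib
import Pool.Agent.H791Z.LogConv.Comb

/-! Counting homomorphisms into a plane. -/

namespace Pool.Agent.H791Z.LogConv

open Finset

/-- the numerical facts on a projective plane of order `m` that the proof uses -/
structure Plane {P L : Type} [Fintype P] [Fintype L] (inc : P → L → Prop) [DecidableRel inc]
    (m : ℕ) : Prop where
  cardP : Fintype.card P = m ^ 2 + m + 1
  cardL : Fintype.card L = m ^ 2 + m + 1
  pts : ∀ l, (univ.filter (fun p => inc p l)).card = m + 1
  lns : ∀ p, (univ.filter (fun l => inc p l)).card = m + 1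
  meet : ∀ l l', ∃ p, inc p l ∧ inc p l'
  join : ∀ p p', ∃ l, inc p l ∧ inc p' l
  uniq : ∀ p p' l l', inc p l → inc p' l → inc p l' → inc p' l' → p = p' ∨ l = l'

lemma lens_count {Z V : Type} [Fintype V] [DecidableEq Z] (get : Z → V) (put : Z → V → Z)
    (h1 : ∀ z v, get (put z v) = v) (h2 : ∀ z, put z (get z) = z)
    (h3 : ∀ z v w, put (put z v) w = put z w) (s t : Finset Z) (m n : ℕ)
    (hm : ∀ z ∈ s, m ≤ (univ.filter (fun v => put z v ∈ t)).card)
    (hn : ∀ z ∈ t, (univ.filter (fun v => put z v ∈ s)).card ≤ n) :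
    s.card * m ≤ t.card * n := by
  classical
  refine card_mul_le_card_mul (fun z z' => ∃ v, z' = put z v) (fun z hz => ?_) (fun z hz => ?_)
  · refine (hm z hz).trans ?_
    refine card_le_card_of_injOn (fun v => put z v) ?_ ?_
    · intro v hv
      simp only [coe_filter, mem_univ, true_and, Set.mem_setOf_eq] at hv
      simp only [mem_coe, mem_bipartiteAbove]
      exact ⟨hv, v, rfl⟩
    · intro v _ w _ h
      have := congrArg get h
      simpa [h1] using this
  · refine le_trans ?_ (hn z hz)
    refine card_le_card_of_injOn get ?_ ?_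
    · intro y hy
      simp only [mem_coe, mem_bipartiteBelow] at hy
      obtain ⟨hy, v, rfl⟩ := hy
      simp only [coe_filter, mem_univ, true_and, Set.mem_setOf_eq]
      rwa [h3, h2]
    · intro y hy y' hy' h
      simp only [mem_coe, mem_bipartiteBelow] at hy hy'
      obtain ⟨_, v, hv⟩ := hy
      obtain ⟨_, v', hv'⟩ := hy'
      have e1 : y = put z (get y) := by rw [hv, h3, h2]
      have e2 : y' = put z (get y') := by rw [hv', h3, h2]
      rw [e1, e2, h]

variable {A B P L : Type} [Fintype A] [Fintype B] [DecidableEq A] [DecidableEq B]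
  [Fintype P] [Fintype L] [DecidableEq P] [DecidableEq L] (inc : P → L → Prop) [DecidableRel inc]

/-- homomorphisms -/
def Hom (I : Finset (A × B)) : Finset ((A → P) × (B → L)) :=
  univ.filter (fun z => ∀ e ∈ I, inc (z.1 e.1) (z.2 e.2))

open Classical in
/-- locally injective homomorphisms -/
noncomputable def LocInj (I : Finset (A × B)) : Finset ((A → P) × (B → L)) :=
  univ.filter (fun z => (∀ e ∈ I, inc (z.1 e.1) (z.2 e.2)) ∧
    (∀ e ∈ I, ∀ e' ∈ I, z.1 e.1 = z.1 e'.1 → e.1 = e'.1) ∧
    (∀ e ∈ I, ∀ e' ∈ I, z.2 e.2 = z.2 e'.2 → e.2 = e'.2))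

lemma mem_Hom {I : Finset (A × B)} {z : (A → P) × (B → L)} :
    z ∈ Hom inc I ↔ ∀ e ∈ I, inc (z.1 e.1) (z.2 e.2) := by simp [Hom]

lemma mem_Inj {I : Finset (A × B)} {z : (A → P) × (B → L)} :
    z ∈ LocInj inc I ↔ (∀ e ∈ I, inc (z.1 e.1) (z.2 e.2)) ∧
    (∀ e ∈ I, ∀ e' ∈ I, z.1 e.1 = z.1 e'.1 → e.1 = e'.1) ∧
    (∀ e ∈ I, ∀ e' ∈ I, z.2 e.2 = z.2 e'.2 → e.2 = e'.2) := by
  simp only [LocInj, mem_filter, mem_univ, true_and]

variable {inc}

/-- swapping the two sides -/
lemma Plane.swap {m : ℕ} (h : Plane inc m) : Plane (fun l p => inc p l) m where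
  cardP := h.cardL
  cardL := h.cardP
  pts := h.lns
  lns := h.pts
  meet := h.join
  join := h.meet
  uniq := fun l l' p p' a b c d => (h.uniq p p' l l' a c b d).symm

lemma card_Hom_swap (I : Finset (A × B)) :
    (Hom (fun l p => inc p l) (I.image Prod.swap)).card = (Hom inc I).card := by
  apply card_bij (fun z _ => z.swap)
  · intro z hz
    rw [mem_Hom] at hz ⊢
    intro e he
    exact hz e.swap (mem_image_of_mem _ he)
  · intro z _ z' _ h
    exact Prod.swap_injective h
  · intro z hz
    refine ⟨z.swap, ?_, rfl⟩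
    rw [mem_Hom] at hz ⊢
    intro e he
    obtain ⟨f, hf, rfl⟩ := mem_image.1 he
    exact hz f hf

lemma card_Inj_swap (I : Finset (A × B)) :
    (LocInj (fun l p => inc p l) (I.image Prod.swap)).card = (LocInj inc I).card := by
  apply card_bij (fun z _ => z.swap)
  · intro z hz
    rw [mem_Inj] at hz ⊢
    refine ⟨fun e he => hz.1 e.swap (mem_image_of_mem _ he), fun e he e' he' => ?_,
      fun e he e' he' => ?_⟩
    · exact hz.2.2 e.swap (mem_image_of_mem _ he) e'.swap (mem_image_of_mem _ he')
    · exact hz.2.1 e.swap (mem_image_of_mem _ he) e'.swap (mem_image_of_mem _ he')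
  · intro z _ z' _ h
    exact Prod.swap_injective h
  · intro z hz
    refine ⟨z.swap, ?_, rfl⟩
    rw [mem_Inj] at hz ⊢
    refine ⟨fun e he => ?_, fun e he e' he' => ?_, fun e he e' he' => ?_⟩
    · obtain ⟨f, hf, rfl⟩ := mem_image.1 he
      exact hz.1 f hf
    · obtain ⟨f, hf, rfl⟩ := mem_image.1 he
      obtain ⟨f', hf', rfl⟩ := mem_image.1 he'
      exact hz.2.2 f hf f' hf'
    · obtain ⟨f, hf, rfl⟩ := mem_image.1 he
      obtain ⟨f', hf', rfl⟩ := mem_image.1 he'
      exact hz.2.1 f hf f' hf'

lemma lens_point (a : A) (s t : Finset ((A → P) × (B → L))) (m n : ℕ)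
    (hm : ∀ z ∈ s, m ≤ (univ.filter (fun v => (Function.update z.1 a v, z.2) ∈ t)).card)
    (hn : ∀ z ∈ t, (univ.filter (fun v => (Function.update z.1 a v, z.2) ∈ s)).card ≤ n) :
    s.card * m ≤ t.card * n :=
  lens_count (fun z => z.1 a) (fun z v => (Function.update z.1 a v, z.2))
    (by simp) (by simp) (by simp) s t m n hm hn

/-- removing the edges at a point of degree one or two: lower bound -/
lemma hom_remove {m : ℕ} (h : Plane inc m) (I : Finset (A × B)) (a : A)
    (h1 : 1 ≤ (I.filter (fun e => e.1 = a)).card) (h2 : (I.filter (fun e => e.1 = a)).card ≤ 2) :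
    (Hom inc (I.filter (fun e => e.1 ≠ a))).card ≤
      (Hom inc I).card * (m + 1) ^ (I.filter (fun e => e.1 = a)).card := by
  have key : ∀ z ∈ Hom inc (I.filter (fun e => e.1 ≠ a)), ∀ v,
      (∀ e ∈ I.filter (fun e => e.1 = a), inc v (z.2 e.2)) →
      (Function.update z.1 a v, z.2) ∈ Hom inc I := by
    intro z hz v hv
    rw [mem_Hom] at hz ⊢
    intro e he
    by_cases hea : e.1 = a
    · simp only [hea, Function.update_self]
      exact hv e (mem_filter.2 ⟨he, hea⟩)
    · simp only [Function.update_of_ne hea]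
      exact hz e (mem_filter.2 ⟨he, hea⟩)
  have hN : ∀ z ∈ Hom inc I, (univ.filter (fun v => (Function.update z.1 a v, z.2) ∈
      Hom inc (I.filter (fun e => e.1 ≠ a)))).card ≤ (m + 1) * (m + 1) := by
    intro z _
    refine (card_le_univ _).trans ?_
    rw [h.cardP]
    nlinarith
  obtain hd | hd : (I.filter (fun e => e.1 = a)).card = 1 ∨
      (I.filter (fun e => e.1 = a)).card = 2 := by omega
  · obtain ⟨e, he⟩ := card_eq_one.1 hd
    have := lens_point a _ _ (m + 1) _ (fun z hz => ?_) hN
    · rw [hd, pow_one]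
      rw [← mul_assoc] at this
      exact Nat.le_of_mul_le_mul_right this (Nat.succ_pos m)
    · rw [← h.pts (z.2 e.2)]
      refine card_le_card fun v hv => ?_
      simp only [mem_filter, mem_univ, true_and] at hv ⊢
      refine key z hz v ?_
      rw [he]
      simpa using hv
  · obtain ⟨e, e', -, he⟩ := card_eq_two.1 hd
    have := lens_point a _ _ 1 _ (fun z hz => ?_) hN
    · rw [hd, pow_two]
      simpa using this
    · obtain ⟨v, hv, hv'⟩ := h.meet (z.2 e.2) (z.2 e'.2)
      refine card_pos.2 ⟨v, ?_⟩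
      simp only [mem_filter, mem_univ, true_and]
      refine key z hz v ?_
      rw [he]
      simp [hv, hv']

/-- removing the edges at a point of degree one or two: upper bound -/
lemma inj_remove {m : ℕ} (h : Plane inc m) (I : Finset (A × B)) (a : A)
    (h1 : 1 ≤ (I.filter (fun e => e.1 = a)).card) (h2 : (I.filter (fun e => e.1 = a)).card ≤ 2) :
    (LocInj inc I).card * m ^ (I.filter (fun e => e.1 = a)).card ≤
      (LocInj inc (I.filter (fun e => e.1 ≠ a))).card := by
  have hN : ∀ z ∈ LocInj inc I, m ^ 2 + m + 1 ≤ (univ.filter (fun v => (Function.update z.1 a v, z.2) ∈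
      LocInj inc (I.filter (fun e => e.1 ≠ a)))).card := by
    intro z hz
    rw [← h.cardP, ← card_univ]
    refine card_le_card fun v _ => ?_
    simp only [mem_filter, mem_univ, true_and]
    rw [mem_Inj] at hz ⊢
    refine ⟨fun e he => ?_, fun e he e' he' => ?_, fun e he e' he' => ?_⟩
    · obtain ⟨he, hea⟩ := mem_filter.1 he
      simp only [Function.update_of_ne hea]
      exact hz.1 e he
    · obtain ⟨he, hea⟩ := mem_filter.1 he
      obtain ⟨he', hea'⟩ := mem_filter.1 he'
      simp only [Function.update_of_ne hea, Function.update_of_ne hea']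
      exact hz.2.1 e he e' he'
    · exact hz.2.2 e (mem_filter.1 he).1 e' (mem_filter.1 he').1
  have key : ∀ (z : (A → P) × (B → L)) v, (Function.update z.1 a v, z.2) ∈ LocInj inc I →
      ∀ e ∈ I.filter (fun e => e.1 = a), inc v (z.2 e.2) := by
    intro z v hz e he
    obtain ⟨he, hea⟩ := mem_filter.1 he
    have := ((mem_Inj inc).1 hz).1 e he
    simpa [hea] using this
  obtain hd | hd : (I.filter (fun e => e.1 = a)).card = 1 ∨
      (I.filter (fun e => e.1 = a)).card = 2 := by omega
  · obtain ⟨e, he⟩ := card_eq_one.1 hd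
    have := lens_point a _ _ _ (m + 1) hN (fun z _ => ?_)
    · rw [hd, pow_one]
      refine Nat.le_of_mul_le_mul_right (le_trans ?_ this) (Nat.succ_pos m)
      rw [mul_assoc]
      refine Nat.mul_le_mul_left _ ?_
      nlinarith
    · rw [← h.pts (z.2 e.2)]
      refine card_le_card fun v hv => ?_
      simp only [mem_filter, mem_univ, true_and] at hv ⊢
      exact key z v hv e (by rw [he]; simp)
  · obtain ⟨e, e', hne, he⟩ := card_eq_two.1 hd
    have := lens_point a _ _ _ 1 hN (fun z _ => ?_)
    · rw [hd]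
      refine le_trans ?_ (this.trans_eq (mul_one _))
      exact Nat.mul_le_mul_left _ (by omega)
    · rw [card_le_one]
      intro v hv w hw
      simp only [mem_filter, mem_univ, true_and] at hv hw
      have m1 : e ∈ I.filter (fun e => e.1 = a) := by rw [he]; simp
      have m2 : e' ∈ I.filter (fun e => e.1 = a) := by rw [he]; simp
      rcases h.uniq v w _ _ (key z v hv e m1) (key z w hw e m1) (key z v hv e' m2)
        (key z w hw e' m2) with h3 | h3
      · exact h3
      · exfalso
        have h4 := ((mem_Inj inc).1 hv).2.2 e (mem_filter.1 m1).1 e' (mem_filter.1 m2).1 h3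
        exact hne (Prod.ext ((mem_filter.1 m1).2.trans (mem_filter.1 m2).2.symm) h4)

lemma swap_filter_eq (I : Finset (A × B)) (b : B) :
    ((I.image Prod.swap).filter (fun e => e.1 = b)).card = (I.filter (fun e => e.2 = b)).card := by
  rw [filter_image, card_image_of_injective _ Prod.swap_injective]
  rfl

lemma swap_filter_ne (I : Finset (A × B)) (b : B) :
    ((I.image Prod.swap).filter (fun e => e.1 ≠ b)) = (I.filter (fun e => e.2 ≠ b)).image Prod.swap := by
  rw [filter_image]
  rfl

lemma hom_remove' {m : ℕ} (h : Plane inc m) (I : Finset (A × B)) (b : B)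
    (h1 : 1 ≤ (I.filter (fun e => e.2 = b)).card) (h2 : (I.filter (fun e => e.2 = b)).card ≤ 2) :
    (Hom inc (I.filter (fun e => e.2 ≠ b))).card ≤
      (Hom inc I).card * (m + 1) ^ (I.filter (fun e => e.2 = b)).card := by
  have := hom_remove h.swap (I.image Prod.swap) b (by rwa [swap_filter_eq])
    (by rwa [swap_filter_eq])
  rwa [swap_filter_eq, swap_filter_ne, card_Hom_swap, card_Hom_swap] at this

lemma inj_remove' {m : ℕ} (h : Plane inc m) (I : Finset (A × B)) (b : B)
    (h1 : 1 ≤ (I.filter (fun e => e.2 = b)).card) (h2 : (I.filter (fun e => e.2 = b)).card ≤ 2) :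
    (LocInj inc I).card * m ^ (I.filter (fun e => e.2 = b)).card ≤
      (LocInj inc (I.filter (fun e => e.2 ≠ b))).card := by
  have := inj_remove h.swap (I.image Prod.swap) b (by rwa [swap_filter_eq])
    (by rwa [swap_filter_eq])
  rwa [swap_filter_eq, swap_filter_ne, card_Inj_swap, card_Inj_swap] at this

lemma card_univ_Z {m : ℕ} (h : Plane inc m) :
    Fintype.card ((A → P) × (B → L)) = (m ^ 2 + m + 1) ^ (Fintype.card A + Fintype.card B) := by
  rw [Fintype.card_prod, Fintype.card_fun, Fintype.card_fun, h.cardP, h.cardL, pow_add]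

/-- the star collapse -/
lemma hom_star {m : ℕ} (h : Plane inc m) (I : Finset (A × B))
    (hI : 2 * (I.image Prod.fst).card + (I.image Prod.snd).card ≤ I.card) :
    (m ^ 2 + m + 1) ^ (Fintype.card A + Fintype.card B) ≤ (Hom inc I).card * (m + 1) ^ I.card := by
  have : Nonempty P := Fintype.card_pos_iff.1 (by rw [h.cardP]; omega)
  obtain ⟨x0⟩ := this
  set S := I.image Prod.fst
  set T := I.image Prod.snd
  let s : A → Finset P := fun a => if a ∈ S then {x0} else univ
  let t : B → Finset L := fun b => if b ∈ T then univ.filter (fun l => inc x0 l) else univ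
  have hsub : Fintype.piFinset s ×ˢ Fintype.piFinset t ⊆ Hom inc I := by
    intro z hz
    rw [mem_Hom]
    intro e he
    simp only [mem_product, Fintype.mem_piFinset] at hz
    have h1 := hz.1 e.1
    have h2 := hz.2 e.2
    have m1 : e.1 ∈ S := mem_image_of_mem Prod.fst he
    have m2 : e.2 ∈ T := mem_image_of_mem Prod.snd he
    simp only [s, t, m1, m2, if_true, mem_singleton, mem_filter] at h1 h2
    rw [h1]
    exact h2.2
  have h1 := card_le_card hsub
  rw [card_product, Fintype.card_piFinset, Fintype.card_piFinset] at h1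
  have h2 : (m ^ 2 + m + 1) ^ Fintype.card A ≤ (∏ a, (s a).card) * (m + 1) ^ (2 * S.card) := by
    have : (m + 1) ^ (2 * S.card) = ∏ a, (if a ∈ S then (m + 1) ^ 2 else 1) := by
      rw [prod_ite_mem, univ_inter, prod_const, pow_mul]
    rw [this, ← prod_mul_distrib, ← card_univ, ← prod_const]
    refine prod_le_prod' fun a _ => ?_
    simp only [s]
    split_ifs
    · simp only [card_singleton]
      nlinarith
    · simp [h.cardP]
  have h3 : (m ^ 2 + m + 1) ^ Fintype.card B ≤ (∏ b, (t b).card) * (m + 1) ^ (T.card) := by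
    have : (m + 1) ^ (T.card) = ∏ b, (if b ∈ T then (m + 1) else 1) := by
      rw [prod_ite_mem, univ_inter, prod_const]
    rw [this, ← prod_mul_distrib, ← card_univ, ← prod_const]
    refine prod_le_prod' fun b _ => ?_
    simp only [t]
    split_ifs
    · rw [h.lns]
      nlinarith
    · simp [h.cardL]
  calc (m ^ 2 + m + 1) ^ (Fintype.card A + Fintype.card B)
      ≤ ((∏ a, (s a).card) * (m + 1) ^ (2 * S.card)) * ((∏ b, (t b).card) * (m + 1) ^ (T.card)) := by
        rw [pow_add]
        exact Nat.mul_le_mul h2 h3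
    _ = ((∏ a, (s a).card) * (∏ b, (t b).card)) * (m + 1) ^ (2 * S.card + T.card) := by
        rw [pow_add]; ring
    _ ≤ _ := Nat.mul_le_mul h1 (Nat.pow_le_pow_right (Nat.succ_pos m) hI)

/-- Sidorenko-type lower bound in every plane -/
theorem hom_lower {m : ℕ} (h : Plane inc m) (n : ℕ) : ∀ I : Finset (A × B), I.card = n →
    (m ^ 2 + m + 1) ^ (Fintype.card A + Fintype.card B) ≤ (Hom inc I).card * (m + 1) ^ I.card := by
  induction n using Nat.strong_induction_on with
  | _ n ih =>
  intro I hI
  rcases dichotomy I with ⟨a, h1, h2⟩ | ⟨b, h1, h2⟩ | ⟨h1, h2⟩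
  · have hc : (I.filter (fun e => e.1 = a)).card + (I.filter (fun e => e.1 ≠ a)).card = I.card :=
      card_filter_add_card_filter_not (s := I) (fun e => e.1 = a)
    have := ih _ (by omega) (I.filter (fun e => e.1 ≠ a)) rfl
    refine this.trans ((Nat.mul_le_mul_right _ (hom_remove h I a h1 h2)).trans_eq ?_)
    rw [mul_assoc, ← pow_add, hc]
  · have hc : (I.filter (fun e => e.2 = b)).card + (I.filter (fun e => e.2 ≠ b)).card = I.card :=
      card_filter_add_card_filter_not (s := I) (fun e => e.2 = b)
    have := ih _ (by omega) (I.filter (fun e => e.2 ≠ b)) rfl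
    refine this.trans ((Nat.mul_le_mul_right _ (hom_remove' h I b h1 h2)).trans_eq ?_)
    rw [mul_assoc, ← pow_add, hc]
  · rcases le_total (I.image Prod.fst).card (I.image Prod.snd).card with h3 | h3
    · exact hom_star h I (by omega)
    · have := hom_star h.swap (I.image Prod.swap) (by
        rw [image_image, image_image, card_image_of_injective _ Prod.swap_injective]
        have e1 : (Prod.fst ∘ Prod.swap : A × B → B) = Prod.snd := rfl
        have e2 : (Prod.snd ∘ Prod.swap : A × B → A) = Prod.fst := rfl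
        rw [e1, e2]
        omega)
      rwa [card_Hom_swap, card_image_of_injective _ Prod.swap_injective,
        add_comm (Fintype.card B)] at this

/-- upper bound for sparse edge sets -/
theorem inj_upper {m : ℕ} (h : Plane inc m) (n : ℕ) : ∀ I : Finset (A × B), I.card = n →
    Sparse I →
    (LocInj inc I).card * m ^ I.card ≤ (m ^ 2 + m + 1) ^ (Fintype.card A + Fintype.card B) := by
  induction n using Nat.strong_induction_on with
  | _ n ih =>
  intro I hI hs
  rcases dichotomy I with ⟨a, h1, h2⟩ | ⟨b, h1, h2⟩ | ⟨h1, h2⟩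
  · have hc : (I.filter (fun e => e.1 = a)).card + (I.filter (fun e => e.1 ≠ a)).card = I.card :=
      card_filter_add_card_filter_not (s := I) (fun e => e.1 = a)
    have := ih _ (by omega) (I.filter (fun e => e.1 ≠ a)) rfl (hs.mono (filter_subset _ _))
    refine le_trans ?_ ((Nat.mul_le_mul_right _ (inj_remove h I a h1 h2)).trans this)
    rw [mul_assoc, ← pow_add, hc]
  · have hc : (I.filter (fun e => e.2 = b)).card + (I.filter (fun e => e.2 ≠ b)).card = I.card :=
      card_filter_add_card_filter_not (s := I) (fun e => e.2 = b)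
    have := ih _ (by omega) (I.filter (fun e => e.2 ≠ b)) rfl (hs.mono (filter_subset _ _))
    refine le_trans ?_ ((Nat.mul_le_mul_right _ (inj_remove' h I b h1 h2)).trans this)
    rw [mul_assoc, ← pow_add, hc]
  · rcases I.eq_empty_or_nonempty with rfl | hne
    · rw [card_empty, pow_zero, mul_one, ← card_univ_Z (A := A) (B := B) h]
      exact card_le_univ _
    · have := hs I Subset.rfl hne
      omega

end Pool.Agent.H791Z.LogConv
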