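import Mathlib

/-! Definitions for the log-convergence statement. -/

namespace Pool.Agent.H791Z.LogConv

/-- `hom(H, G)`: the number of pairs of maps `V₁(H) → V₁(G)`, `V₂(H) → V₂(G)` sending edges to
edges; a bipartite graph with labelled classes is given by its edge relation. -/
noncomputable def homCount {A B P L : Type} (H : A → B → Prop) (G : P → L → Prop) : ℕ :=
  Nat.card {f : (A → P) × (B → L) // ∀ a b, H a b → G (f.1 a) (f.2 b)}

/-- The bipartite density `t_B(H, G)`. -/
noncomputable def tB {A B P L : Type} (H : A → B → Prop) (G : P → L → Prop) : ℝ :=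
  (homCount H G : ℝ) / ((Nat.card P : ℝ) ^ Nat.card A * (Nat.card L : ℝ) ^ Nat.card B)

end Pool.Agent.H791Z.LogConv
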