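import Mathlib
import Pool.Agent.H791Z.LogConv.Count
import Pool.Agent.H791Z.LogConv.Defs

/-! The exponent of the number of homomorphisms into a projective plane. -/

namespace Pool.Agent.H791Z.LogConv

open Finset Filter Topology

section
variable {A B P L : Type} [Fintype A] [Fintype B] [DecidableEq A] [DecidableEq B]
  [Fintype P] [Fintype L] [DecidableEq P] [DecidableEq L] {inc : P → L → Prop} [DecidableRel inc]

lemma card_agree (U : Finset A) (x : A → P) :
    (univ.filter (fun y : A → P => ∀ a ∈ U, y a = x a)).card =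
      Fintype.card P ^ (Fintype.card A - U.card) := by
  have : univ.filter (fun y : A → P => ∀ a ∈ U, y a = x a) =
      Fintype.piFinset (fun a => if a ∈ Uᶜ then univ else {x a}) := by
    ext y
    simp only [mem_filter, mem_univ, true_and, Fintype.mem_piFinset, mem_compl]
    refine forall_congr' fun a => ?_
    by_cases h : a ∈ U <;> simp [h]
  rw [this, Fintype.card_piFinset]
  have : ∀ a, (if a ∈ Uᶜ then (univ : Finset P) else {x a}).card =
      if a ∈ Uᶜ then Fintype.card P else 1 := by
    intro a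
    split_ifs <;> simp
  simp only [this]
  rw [prod_ite_mem, univ_inter, prod_const, card_compl]

lemma card_agree2 (U : Finset A) (V : Finset B) (z : (A → P) × (B → L)) :
    (univ.filter (fun y : (A → P) × (B → L) => (∀ a ∈ U, y.1 a = z.1 a) ∧
      ∀ b ∈ V, y.2 b = z.2 b)).card =
      Fintype.card P ^ (Fintype.card A - U.card) * Fintype.card L ^ (Fintype.card B - V.card) := by
  rw [← card_agree U z.1, ← card_agree V z.2, ← card_product, ← filter_product]
  rfl

/-- the cost of a quotient -/
def cost (I : Finset (A × B)) (q : (A → A) × (B → B)) : ℕ :=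
  2 * (Fintype.card A - (univ.image q.1).card) + 2 * (Fintype.card B - (univ.image q.2).card) +
    (I.image (Prod.map q.1 q.2)).card

lemma lower_cost {m : ℕ} (h : Plane inc m) (I : Finset (A × B)) (q : (A → A) × (B → B)) :
    (m ^ 2 + m + 1) ^ (Fintype.card A + Fintype.card B) ≤
      (Hom inc I).card * (m + 1) ^ cost I q := by
  refine (hom_lower h _ (I.image (Prod.map q.1 q.2)) rfl).trans ?_
  have h1 : (Hom inc (I.image (Prod.map q.1 q.2))).card ≤
      (Fintype.card P ^ (Fintype.card A - (univ.image q.1).card) *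
        Fintype.card L ^ (Fintype.card B - (univ.image q.2).card)) * (Hom inc I).card := by
    refine card_le_mul_card_image_of_maps_to (f := fun z => (z.1 ∘ q.1, z.2 ∘ q.2)) ?_ _ ?_
    · intro z hz
      rw [mem_Hom] at hz ⊢
      intro e he
      exact hz _ (mem_image_of_mem _ he)
    · intro w _
      rcases ((Hom inc (I.image (Prod.map q.1 q.2))).filter
        (fun z => (z.1 ∘ q.1, z.2 ∘ q.2) = w)).eq_empty_or_nonempty with he | ⟨z, hz⟩
      · rw [he]; simp
      · rw [← card_agree2 _ _ z]
        refine card_le_card fun y hy => ?_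
        have e1 := (mem_filter.1 hy).2.trans (mem_filter.1 hz).2.symm
        simp only [Prod.mk.injEq] at e1
        simp only [mem_filter, mem_univ, true_and, mem_image]
        constructor
        · rintro _ ⟨a, rfl⟩
          exact congrFun e1.1 a
        · rintro _ ⟨a, rfl⟩
          exact congrFun e1.2 a
  rw [h.cardP, h.cardL, ← pow_add] at h1
  have h2 : m ^ 2 + m + 1 ≤ (m + 1) ^ 2 := by nlinarith
  have h3 := Nat.pow_le_pow_left h2
    (Fintype.card A - (univ.image q.1).card + (Fintype.card B - (univ.image q.2).card))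
  refine (Nat.mul_le_mul_right _ (h1.trans (Nat.mul_le_mul_right _ h3))).trans_eq ?_
  rw [cost, ← pow_mul, mul_add, pow_add _ _ (I.image _).card]
  ring

omit [Fintype A] [DecidableEq A] [Fintype P] [DecidableEq P] in
lemma exists_rep (x : A → P) : ∃ q : A → A, x ∘ q = x ∧ ∀ a a', x (q a) = x (q a') → q a = q a' := by
  classical
  refine ⟨fun a => Classical.choose (⟨a, rfl⟩ : ∃ a', x a' = x a), ?_, ?_⟩
  · funext a
    exact Classical.choose_spec (⟨a, rfl⟩ : ∃ a', x a' = x a)
  · intro a a' h
    have e1 := Classical.choose_spec (⟨a, rfl⟩ : ∃ a', x a' = x a)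
    have e2 := Classical.choose_spec (⟨a', rfl⟩ : ∃ a'', x a'' = x a')
    have e3 : x a = x a' := e1.symm.trans (h.trans e2)
    simp only [e3]

lemma upper_cost {m : ℕ} (h : Plane inc m) (hm : 1 ≤ m) (I : Finset (A × B)) (c : ℕ)
    (hc : ∀ q, c ≤ cost I q) :
    (Hom inc I).card * m ^ c ≤ Fintype.card ((A → A) × (B → B)) *
      (m ^ 2 + m + 1) ^ (Fintype.card A + Fintype.card B) := by
  classical
  let F : (A → A) × (B → B) → Finset ((A → P) × (B → L)) := fun q =>
    (Hom inc I).filter (fun z => (z.1 ∘ q.1 = z.1 ∧ ∀ a a', z.1 (q.1 a) = z.1 (q.1 a') → q.1 a = q.1 a')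
      ∧ (z.2 ∘ q.2 = z.2 ∧ ∀ a a', z.2 (q.2 a) = z.2 (q.2 a') → q.2 a = q.2 a'))
  have hcov : Hom inc I ⊆ univ.biUnion F := by
    intro z hz
    obtain ⟨q1, h1⟩ := exists_rep z.1
    obtain ⟨q2, h2⟩ := exists_rep z.2
    exact mem_biUnion.2 ⟨(q1, q2), mem_univ _, mem_filter.2 ⟨hz, h1, h2⟩⟩
  have hF : ∀ q, (F q).card * m ^ c ≤ (m ^ 2 + m + 1) ^ (Fintype.card A + Fintype.card B) := by
    intro q
    obtain ⟨I0, hI0, hs, q', hq'⟩ := exists_sparse (univ.image q.1) _
      (I.image (Prod.map q.1 q.2)) rfl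
    have h1 := hc (q' ∘ q.1, q.2)
    have e1 : I.image (Prod.map (q' ∘ q.1) q.2) =
        (I.image (Prod.map q.1 q.2)).image (Prod.map q' id) := by
      rw [image_image]; rfl
    have e2 : univ.image (q' ∘ q.1) = (univ.image q.1).image q' := by rw [image_image]
    simp only [cost, e1, e2] at h1
    have b1 : (univ.image q.1).card ≤ Fintype.card A := card_le_univ _
    have b2 : ((univ.image q.1).image q').card ≤ Fintype.card A := card_le_univ _
    set k := Fintype.card A - (univ.image q.1).card + (Fintype.card B - (univ.image q.2).card)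
      with hk
    have h2 : c ≤ 2 * k + I0.card := by omega
    have h3 : (F q).card * (m ^ 2 + m + 1) ^ k ≤ (LocInj inc I0).card * 1 := by
      refine card_mul_le_card_mul (fun z y => (∀ a ∈ univ.image q.1, y.1 a = z.1 a) ∧
        ∀ b ∈ univ.image q.2, y.2 b = z.2 b) ?_ ?_
      · intro z hz
        rw [hk, pow_add]
        have := card_agree2 (univ.image q.1) (univ.image q.2) z
        rw [h.cardP, h.cardL] at this
        rw [← this]
        refine card_le_card fun y hy => ?_
        have hy := (mem_filter.1 hy).2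
        rw [mem_bipartiteAbove]
        refine ⟨?_, hy⟩
        obtain ⟨hz0, ⟨hz1, hz2⟩, hz3, hz4⟩ := mem_filter.1 hz
        rw [mem_Hom] at hz0
        have y1 : ∀ a, y.1 (q.1 a) = z.1 (q.1 a) := fun a => hy.1 _ (mem_image_of_mem _ (mem_univ a))
        have y2 : ∀ a, y.2 (q.2 a) = z.2 (q.2 a) := fun a => hy.2 _ (mem_image_of_mem _ (mem_univ a))
        rw [mem_Inj]
        refine ⟨fun e he => ?_, fun e he e' he' => ?_, fun e he e' he' => ?_⟩
        · obtain ⟨f, hf, rfl⟩ := mem_image.1 (hI0 he)
          simp only [Prod.map_fst, Prod.map_snd, y1, y2]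
          have a1 : z.1 (q.1 f.1) = z.1 f.1 := congrFun hz1 _
          have a2 : z.2 (q.2 f.2) = z.2 f.2 := congrFun hz3 _
          rw [a1, a2]
          exact hz0 f hf
        · obtain ⟨f, hf, rfl⟩ := mem_image.1 (hI0 he)
          obtain ⟨f', hf', rfl⟩ := mem_image.1 (hI0 he')
          simp only [Prod.map_fst, y1]
          exact hz2 _ _
        · obtain ⟨f, hf, rfl⟩ := mem_image.1 (hI0 he)
          obtain ⟨f', hf', rfl⟩ := mem_image.1 (hI0 he')
          simp only [Prod.map_snd, y2]
          exact hz4 _ _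
      · intro y _
        rw [card_le_one]
        intro z hz w hw
        rw [mem_bipartiteBelow] at hz hw
        obtain ⟨-, ⟨hz1, -⟩, hz3, -⟩ := mem_filter.1 hz.1
        obtain ⟨-, ⟨hw1, -⟩, hw3, -⟩ := mem_filter.1 hw.1
        ext a
        · rw [← congrFun hz1 a, ← congrFun hw1 a]
          have m1 : q.1 a ∈ univ.image q.1 := mem_image_of_mem _ (mem_univ a)
          exact (hz.2.1 _ m1).symm.trans (hw.2.1 _ m1)
        · rw [← congrFun hz3 a, ← congrFun hw3 a]
          have m1 : q.2 a ∈ univ.image q.2 := mem_image_of_mem _ (mem_univ a)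
          exact (hz.2.2 _ m1).symm.trans (hw.2.2 _ m1)
    have h4 := inj_upper h _ I0 rfl hs
    have h5 : m ^ c ≤ (m ^ 2 + m + 1) ^ k * m ^ I0.card := by
      refine (Nat.pow_le_pow_right hm h2).trans ?_
      rw [pow_add, pow_mul]
      exact Nat.mul_le_mul_right _ (Nat.pow_le_pow_left (by omega) _)
    calc (F q).card * m ^ c ≤ (F q).card * ((m ^ 2 + m + 1) ^ k * m ^ I0.card) :=
          Nat.mul_le_mul_left _ h5
      _ = ((F q).card * (m ^ 2 + m + 1) ^ k) * m ^ I0.card := by ring
      _ ≤ ((LocInj inc I0).card * 1) * m ^ I0.card := Nat.mul_le_mul_right _ h3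
      _ ≤ _ := by rwa [mul_one]
  calc (Hom inc I).card * m ^ c ≤ (∑ q, (F q).card) * m ^ c :=
        Nat.mul_le_mul_right _ ((card_le_card hcov).trans card_biUnion_le)
    _ = ∑ q, (F q).card * m ^ c := sum_mul _ _ _
    _ ≤ ∑ _q : (A → A) × (B → B), (m ^ 2 + m + 1) ^ (Fintype.card A + Fintype.card B) :=
        sum_le_sum fun q _ => hF q
    _ = _ := by rw [sum_const, card_univ, smul_eq_mul]

end

open Configuration in
lemma plane_of_projective (P L : Type) [Membership P L] [Fintype P] [Fintype L]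
    [ProjectivePlane P L] [DecidableRel (fun (p : P) (l : L) => p ∈ l)] :
    Plane (fun (p : P) (l : L) => p ∈ l) (ProjectivePlane.order P L) where
  cardP := ProjectivePlane.card_points P L
  cardL := ProjectivePlane.card_lines P L
  pts := fun l => by
    rw [← ProjectivePlane.pointCount_eq P l, pointCount, Nat.card_eq_fintype_card,
      Fintype.card_subtype]
  lns := fun p => by
    rw [← ProjectivePlane.lineCount_eq L p, lineCount, Nat.card_eq_fintype_card,
      Fintype.card_subtype]
  meet := fun l l' => by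
    by_cases h : l = l'
    · subst h
      have h2 := ProjectivePlane.two_lt_pointCount P l
      have : Nonempty {p : P // p ∈ l} := (Nat.card_pos_iff.1 (by unfold pointCount at h2; omega)).1
      obtain ⟨p, hp⟩ := this
      exact ⟨p, hp, hp⟩
    · exact (HasPoints.existsUnique_point P L l l' h).exists
  join := fun p p' => by
    by_cases h : p = p'
    · subst h
      have h2 := ProjectivePlane.two_lt_lineCount L p
      have : Nonempty {l : L // p ∈ l} := (Nat.card_pos_iff.1 (by unfold lineCount at h2; omega)).1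
      obtain ⟨l, hl⟩ := this
      exact ⟨l, hl, hl⟩
    · exact (HasLines.existsUnique_line P L p p' h).exists
  uniq := fun p p' l l' a b c d => Nondegenerate.eq_or_eq a b c d

/-- two-sided bound for the density -/
theorem density_bounds {A B : Type} [Finite A] [Finite B] (H : A → B → Prop)
    (hH : ∃ a b, H a b) : ∃ (c : ℕ) (C : ℝ), 1 ≤ c ∧ 0 < C ∧
    ∀ (P L : Type) [Membership P L] [Finite P] [Finite L] [Configuration.ProjectivePlane P L],
      1 ≤ tB H (fun (p : P) (l : L) => p ∈ l) *
        ((Configuration.ProjectivePlane.order P L : ℝ) + 1) ^ c ∧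
      tB H (fun (p : P) (l : L) => p ∈ l) * (Configuration.ProjectivePlane.order P L : ℝ) ^ c ≤ C := by
  classical
  have := Fintype.ofFinite A
  have := Fintype.ofFinite B
  let I : Finset (A × B) := univ.filter (fun e => H e.1 e.2)
  obtain ⟨q0, -, hq0⟩ := exists_min_image (univ : Finset ((A → A) × (B → B))) (cost I)
    ⟨(id, id), mem_univ _⟩
  refine ⟨cost I q0, Fintype.card ((A → A) × (B → B)), ?_, ?_, ?_⟩
  · obtain ⟨a, b, hab⟩ := hH
    have : 1 ≤ (I.image (Prod.map q0.1 q0.2)).card :=
      card_pos.2 ⟨_, mem_image_of_mem _ (mem_filter.2 ⟨mem_univ (a, b), hab⟩)⟩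
    unfold cost
    omega
  · exact_mod_cast Fintype.card_pos_iff.2 ⟨(id, id)⟩
  intro P L _ _ _ _
  have := Fintype.ofFinite P
  have := Fintype.ofFinite L
  have hp := plane_of_projective P L
  set m := Configuration.ProjectivePlane.order P L
  have hm : 1 ≤ m := (Configuration.ProjectivePlane.one_lt_order P L).le
  have e1 : homCount H (fun (p : P) (l : L) => p ∈ l) =
      (Hom (fun (p : P) (l : L) => p ∈ l) I).card := by
    rw [homCount, Nat.card_eq_fintype_card, Fintype.card_subtype]
    congr 1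
    ext z
    simp [Hom, I]
  have e2 : ((Nat.card P : ℝ) ^ Nat.card A * (Nat.card L : ℝ) ^ Nat.card B) =
      (((m ^ 2 + m + 1) ^ (Fintype.card A + Fintype.card B) : ℕ) : ℝ) := by
    simp only [Nat.card_eq_fintype_card, hp.cardP, hp.cardL]
    push_cast
    rw [pow_add]
  have hpos : (0 : ℝ) < (((m ^ 2 + m + 1) ^ (Fintype.card A + Fintype.card B) : ℕ) : ℝ) := by
    positivity
  rw [tB, e1, e2]
  constructor
  · rw [div_mul_eq_mul_div, le_div_iff₀ hpos, one_mul]
    exact_mod_cast lower_cost hp I q0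
  · rw [div_mul_eq_mul_div, div_le_iff₀ hpos]
    exact_mod_cast upper_cost hp hm I _ (fun q => hq0 q (mem_univ q))

lemma tendsto_log_ratio (t : ℕ → ℝ) (m : ℕ → ℕ) (c : ℕ) (C : ℝ) (hC : 0 < C)
    (hm : Tendsto m atTop atTop) (h1 : ∀ n, 1 ≤ t n * ((m n : ℝ) + 1) ^ c)
    (h2 : ∀ n, t n * (m n : ℝ) ^ c ≤ C) :
    Tendsto (fun n => -Real.log (t n) / Real.log (m n)) atTop (𝓝 c) := by
  have hlog : Tendsto (fun n => Real.log (m n)) atTop atTop :=
    Real.tendsto_log_atTop.comp (tendsto_natCast_atTop_atTop.comp hm)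
  have lo : Tendsto (fun n => (c : ℝ) - Real.log C / Real.log (m n)) atTop (𝓝 c) := by
    simpa using (tendsto_const_nhds (x := (c : ℝ))).sub (tendsto_const_nhds.div_atTop hlog)
  have hi : Tendsto (fun n => (c : ℝ) + c * Real.log 2 / Real.log (m n)) atTop (𝓝 c) := by
    simpa using (tendsto_const_nhds (x := (c : ℝ))).add (tendsto_const_nhds.div_atTop hlog)
  refine tendsto_of_tendsto_of_tendsto_of_le_of_le' lo hi ?_ ?_
  · filter_upwards [hm.eventually_ge_atTop 2] with n hn
    have hn' : (2 : ℝ) ≤ m n := by exact_mod_cast hn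
    have hl : 0 < Real.log (m n) := Real.log_pos (by linarith)
    have ht : 0 < t n := by
      by_contra hneg
      have : t n * ((m n : ℝ) + 1) ^ c ≤ 0 :=
        mul_nonpos_of_nonpos_of_nonneg (not_lt.1 hneg) (by positivity)
      linarith [h1 n]
    have := Real.log_le_log (by positivity) (h2 n)
    rw [Real.log_mul ht.ne' (by positivity), Real.log_pow] at this
    rw [le_div_iff₀ hl, sub_mul, div_mul_cancel₀ _ hl.ne']
    linarith
  · filter_upwards [hm.eventually_ge_atTop 2] with n hn
    have hn' : (2 : ℝ) ≤ m n := by exact_mod_cast hn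
    have hl : 0 < Real.log (m n) := Real.log_pos (by linarith)
    have ht : 0 < t n := by
      by_contra hneg
      have : t n * ((m n : ℝ) + 1) ^ c ≤ 0 :=
        mul_nonpos_of_nonpos_of_nonneg (not_lt.1 hneg) (by positivity)
      linarith [h1 n]
    have := Real.log_le_log (by positivity) (h1 n)
    rw [Real.log_mul ht.ne' (by positivity), Real.log_pow, Real.log_one] at this
    have h3 : Real.log ((m n : ℝ) + 1) ≤ Real.log 2 + Real.log (m n) := by
      rw [← Real.log_mul (by norm_num) (by positivity)]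
      exact Real.log_le_log (by positivity) (by linarith)
    have h4 := mul_le_mul_of_nonneg_left h3 (Nat.cast_nonneg c : (0 : ℝ) ≤ c)
    rw [div_le_iff₀ hl, add_mul, div_mul_cancel₀ _ hl.ne']
    linarith

theorem main {A₁ B₁ A₂ B₂ : Type} [Finite A₁] [Finite B₁] [Finite A₂] [Finite B₂]
    (H₁ : A₁ → B₁ → Prop) (H₂ : A₂ → B₂ → Prop) (h₁ : ∃ a b, H₁ a b) (h₂ : ∃ a b, H₂ a b) :
    ∃ r : ℝ, ∀ (P L : ℕ → Type) [∀ n, Membership (P n) (L n)] [∀ n, Finite (P n)]
      [∀ n, Finite (L n)] [∀ n, Configuration.ProjectivePlane (P n) (L n)],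
      Tendsto (fun n => Configuration.ProjectivePlane.order (P n) (L n)) atTop atTop →
      Tendsto (fun n => (-Real.log (tB H₁ (fun (p : P n) (l : L n) => p ∈ l))) /
        (-Real.log (tB H₂ (fun (p : P n) (l : L n) => p ∈ l)))) atTop (𝓝 r) := by
  obtain ⟨c₁, C₁, -, hC₁, k₁⟩ := density_bounds H₁ h₁
  obtain ⟨c₂, C₂, hc₂, hC₂, k₂⟩ := density_bounds H₂ h₂
  refine ⟨(c₁ : ℝ) / c₂, fun P L _ _ _ _ hm => ?_⟩
  have t1 := tendsto_log_ratio _ _ c₁ C₁ hC₁ hm (fun n => (k₁ (P n) (L n)).1)
    (fun n => (k₁ (P n) (L n)).2)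
  have t2 := tendsto_log_ratio _ _ c₂ C₂ hC₂ hm (fun n => (k₂ (P n) (L n)).1)
    (fun n => (k₂ (P n) (L n)).2)
  have hc : (c₂ : ℝ) ≠ 0 := by positivity
  refine (t1.div t2 hc).congr fun n => ?_
  have hl : 0 < Real.log (Configuration.ProjectivePlane.order (P n) (L n) : ℝ) :=
    Real.log_pos (by exact_mod_cast Configuration.ProjectivePlane.one_lt_order (P n) (L n))
  simp only [Pi.div_apply]
  rw [div_div_div_cancel_right₀ hl.ne']

end Pool.Agent.H791Z.LogConv
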